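import Pool.Agent.Q55.Det.MainD

/-!
# The conjecture D and the determinants of the primitive cohomology

Let `X` be a smooth projective variety of dimension `d` with a divisor `D` satisfying hard
Lefschetz. For `i < d` let `P^i` be the primitive part of `H^i(X)` and `p` its dimension. If
`p ≠ 0` and `e` is a basis of `P^i` then `f_j = D^(d - i) e_j` is a basis of the subspace
`D^(d - i) P^i` of `H^(2 d - i)(X)`. Its determinant

  `det f = ∑ sign(σ) f_σ(1) × ⋯ × f_σ(p)` in the cohomology of `X^p`

and the class `δ_i = det f × det f` in `H^(2 p (2 d - i))(X^(2 p))` do not depend on `e`, up to a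
nonzero scalar. As a correspondence from `X^p` to `X^p` this is an operator of rank one.

The theorem. The following are equivalent:

* the conjecture B for `X`;
* for all `i < d` some algebraic class of codimension `i p` on `X^(2 p)` has a nonzero intersection
  number with `δ_i`;
* the conjecture D holds for the classes `δ_i`: if `δ_i` is algebraic and numerically trivial then
  it vanishes.

If the standard conjecture of Hodge type holds for the powers of `X` (as in characteristic zero)
then these statements are equivalent to the conjecture D for all powers of `X` in all codimensions.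
So for all powers of a fixed variety the conjecture D follows from its case for at most `d` explicit
classes, one for each degree `i < d`, which are decomposable tensors of rank one.

The proof. By induction on `i` the inverses of `D^(d - j)` on `H^j(X)`, `j < i`, are algebraic, and
then `δ_i` is algebraic (see `DeterminantClasses`, MP_0273e8_ag). By the conjecture D for `δ_i` there is
an algebraic class `w` on `X^(2 p)` with a nonzero intersection number with `δ_i`. The operator `E` on
`H(X)` that vanishes in degrees less than `i` and is the projection to `P^i` in degree `i` is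
algebraic too. A class of degree `2 p i` on `X^(2 p)` is mapped to the external power of `P^i` by the
external power of `E`, since no degrees greater than `i` can remain; and the pairing with `δ_i` does
not change. After an antisymmetrization the class is a nonzero multiple of `det e × det e`, and by
Cramer's rule the contractions of this class with classes of `D^(d - i)` give the inverse of
`D^(d - i)` on `P^i`.

Algebraic means here: a linear combination of classes of cycles with coefficients in the
coefficient field.
-/

open CategoryTheory AlgebraicGeometry Module

universe u v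

namespace Pool.Agent.Results.MP_5f0950_ag.DeterminantCycles

open Pool.Agent.H914 Pool.Agent.H914.VarClass Pool.Agent.H914.VarClass.Obj
  Pool.Agent.Y133.Half Pool.Agent.Q55.Det

variable {k : Type u} [Field k] {𝒱 : VarClass k} {ops : CycleOps 𝒱}

/-- The product `u ^ m * x`. -/
def powMul {A : Type*} [Ring A] (u : A) (m : ℕ) (x : A) : A := u ^ m * x

variable (W : WeilCohomology.{u, v} ops) (X : 𝒱.Obj) (D : X.Cycles)

/-- The class `δ_i` on `X^(2 p)`, `p = n + 1`, for a basis `e` of `P^i(X)`. -/
noncomputable def delta (i n : ℕ) (e : Fin (n + 1) → W.H X) : W.H (dblPw X n) :=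
  detSq W n fun j => powMul (W.cl X D) (X.dim - i) (e j)

/-- The intersection number with `δ_i` of some algebraic class of codimension `i p` on `X^(2 p)` is
not zero. -/
def DeltaPairs (i n : ℕ) (e : Fin (n + 1) → W.H X) : Prop :=
  ∃ w ∈ spanCycles W (dblPw X n) (((n + 1) * i : ℕ) : ℤ),
    W.tr (dblPw X n) (w * delta W X D i n e) ≠ 0

/-- The class `δ_i` is algebraic. -/
def DeltaAlgebraic (i n : ℕ) (e : Fin (n + 1) → W.H X) : Prop :=
  delta W X D i n e ∈
    spanCycles W (dblPw X n) (((n + 1) * (2 * (X.dim - i) + i) : ℕ) : ℤ)

/-- The class `δ_i` is numerically trivial. -/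
def DeltaNumTrivial (i n : ℕ) (e : Fin (n + 1) → W.H X) : Prop :=
  ∀ w ∈ spanCycles W (dblPw X n) (((n + 1) * i : ℕ) : ℤ),
    W.tr (dblPw X n) (w * delta W X D i n e) = 0

/-- No class `δ_i` is orthogonal to all algebraic classes. -/
def AllDeltasPair : Prop :=
  ∀ i < X.dim, ∀ (n : ℕ) (e : Fin (n + 1) → W.H X), IsBasisOf (prim W X D i) e →
    DeltaPairs W X D i n e

/-- The conjecture D for the classes `δ_i`: if `δ_i` is algebraic and numerically trivial then it
vanishes. -/
def ConjectureDForDeltas : Prop :=
  ∀ i < X.dim, ∀ (n : ℕ) (e : Fin (n + 1) → W.H X), IsBasisOf (prim W X D i) e →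
    DeltaAlgebraic W X D i n e → DeltaNumTrivial W X D i n e → delta W X D i n e = 0

/-- **The conjecture D for the classes `δ_i` is equivalent to the conjecture B, and to the
conjecture D for all powers of `X` if the conjecture of Hodge type holds for them.** -/
theorem result (hD : X.IsCyc 1 D) (hHL : HardLefschetz W X D) :
    List.TFAE [LefschetzB W X D, AllDeltasPair W X D, ConjectureDForDeltas W X D] ∧
    ((∀ n, HodgeType W (pw X n) (powDiv ops D n)) →
      (ConjectureDForDeltas W X D ↔ ∀ n, HomEqNum W (pw X n))) := by
  have h := detD_tfae hD hHL
  refine ⟨h, fun hH => ?_⟩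
  have h1 := (h.out 0 2).symm
  exact h1.trans (homEqNum_iff_lefschetzB hD hHL hH)

end Pool.Agent.Results.MP_5f0950_ag.DeterminantCycles
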