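import Pool.Agent.Q55.Sy.DMain

/-!
# The conjecture D in middle dimension for the symmetric powers of `X × X`

Let `X` be a smooth projective variety over a field, with a divisor `D` which satisfies the hard
Lefschetz theorem for a Weil cohomology theory. The group `S_n` acts on `(X × X)^n` by permutation of
the `n` factors `X × X`, and the quotient `Sym^n (X × X)` has the invariant classes as cohomology.

**Theorem.** The following are equivalent.

* For all `n`, every numerically trivial cycle on `(X × X)^n` of the middle dimension
  (codimension `n dim X`) whose class is invariant under `S_n` is homologically trivial: the
  conjecture D in the middle dimension for the symmetric powers `Sym^n (X × X)`.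
* The conjecture D holds for all powers of `X` in all codimensions, and then also the conjectures B
  (for all divisors satisfying hard Lefschetz) and C hold for all powers of `X`.

The idea of the proof. If there is a numerically trivial cycle with nonzero class on a power of `X`,
one obtains such a cycle in the middle codimension on an even power `X^(2 n)`, by pull-back to a large
power and multiplication by a power of the symmetric divisor. The classes of the numerically trivial
cycles of the middle codimension on `X^(2 n)` form a nonzero representation of `S_(2n)` over `ℚ`, and
every such representation has a nonzero vector which is fixed by the group `S_n` embedded diagonally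
(a theorem of this repository, `Pool.Agent.Q56.SP.exists_diag`, which is proved with the involution
model of Inglis, Richardson and Saxl).
-/

open CategoryTheory AlgebraicGeometry

universe u v

namespace Pool.Agent.Results.MP_5f0950_ag.MiddleSymmetric

open Pool.Agent.H914 Pool.Agent.H914.VarClass.Obj
open Pool.Agent.Q55.Sy (AllBCD MiddleDSym)

variable {k : Type u} [Field k] {𝒱 : VarClass k} {ops : CycleOps 𝒱}

/-- **The conjectures B, C and D hold for all powers of `X` if and only if the conjecture D holds in
the middle dimension for the symmetric powers of `X × X`.** -/
theorem result (W : WeilCohomology.{u, v} ops) (X : 𝒱.Obj) (D : X.Cycles) (hD : X.IsCyc 1 D)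
    (hHL : HardLefschetz W X D) : AllBCD W X ↔ MiddleDSym W X :=
  Pool.Agent.Q55.Sy.allBCD_iff hD hHL

end Pool.Agent.Results.MP_5f0950_ag.MiddleSymmetric
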