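import Mathlib
import Pool.Agent.Q219.UZ.Narrow

/-!
# The conjecture D for products of abelian varieties and surfaces over finite fields

Fix a prime `p`, a nonempty finite set `κ`, dimensions `g i ≥ 1` and, for each `i`, a symmetric
Newton polygon with slopes `s i j` and `1 - s i j` (`j < g i`, increasing in `j`, between `0` and
`1 / 2`, with integral break points: `IsPolygon (s i)`) whose smallest slope is at most `σ < 1 / 2`;
so it is any Newton polygon that is not the supersingular one. `NewtonStratum g s p a` is the set
of families of isogeny classes of abelian varieties `A_i` of dimension `g i` over the field with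
`p ^ a` elements having these Newton polygons (by the theorem of Honda and Tate it consists of
families of characteristic polynomials of Frobenius). Let `devSum (s i)`, `sqSum (s i)` be the sums of
the numbers `1 - 2 s i j` and of their squares, and let `δ`, `δ₂ > 0` be numbers such that
`δ g i ≤ devSum (s i)` and `δ₂ g i ≤ sqSum (s i)` for all `i`. So `δ = δ₂ = 1` if the `A_i` are
ordinary.

We prove that the number of elements of `NewtonStratum g s p a` tends to infinity with `a`, and that
for all members, except for at most

  `C * a * p ^ (- a (1 - 2 σ) / 6) * |NewtonStratum g s p a|`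

(`C` depends on `p`, `g`, `s`, `σ` only), the following is true.

Let `𝒜` be the class of the abelian varieties `A` over an algebraic closure `k` of the field with `p`
elements which over the field with `Q = p ^ (a s')` elements, for some `s' > 0`, are isogenous to a
product of powers of the `A_i`, of any dimension.

* **Surfaces** (`ConjectureDSurfaces`). Let `δ > 1 / 3`. Let `Z` be any smooth projective surface over
  `k` such that each Frobenius eigenvalue `ρ` on `H ^ 2 (Z)` satisfies one of the following conditions:
  the slopes of `ρ` are in `(1 - δ, 1 + δ)`, that is `ρ` has no slopes `0` and `2` if the `A_i` are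
  ordinary; or the mean of `(λ - 1) ^ 2`, `λ` the slopes of the conjugates of `ρ`, is smaller than
  `δ₂ / 2`. Then **the conjecture D is true for all cycles on `A × Z` for all `A` in `𝒜`**, of arbitrary
  dimension. This is unconditional: besides standard facts only the theorems of Tate (divisors on
  abelian varieties), Deligne (the eigenvalues are Weil numbers), Matsusaka (D for divisors) and
  Kleiman (the inverse of the Lefschetz isomorphism `H ^ 1 → H ^ 3` is algebraic) are used.
  Nothing is assumed on `H ^ 1 (Z)`, and nothing is assumed on relations between the eigenvalues of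
  `Z` and of `A`; the exceptional set does not depend on `Z`.

  Examples (`A_i` ordinary): all surfaces `Z` whose second cohomology has no slope zero, such as K3
  surfaces of height at least `2`; but also the ordinary K3 surfaces for which the transcendental
  part of `H ^ 2` has rank greater than `4` (the conjugates of `ρ` have the slopes `0`, `2` once and `1`
  otherwise, so that the mean is `2 / rank`), and more generally the surfaces for which the
  transcendental part of `H ^ 2` is irreducible for Frobenius of rank greater than `4 p_g`, which is
  the expected behaviour of surfaces of any degree in projective `3`-space. The bound is sharp for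
  the absence of relations: if two of the `A_i` are ordinary elliptic curves, `Z` can be their product,
  with mean `1 / 2`.

* **Varieties of any dimension** (`ConjectureDNarrow`). Let `Z` be a smooth projective variety of
  dimension `d` over `k` such that each Frobenius eigenvalue `ρ` on `H ^ w (Z)`, `0 < w < 2 d`, has
  slopes between `(w - e) / 2` and `(w + e) / 2` with `e < b δ`, or that the mean of `(2 λ - w) ^ 2`
  is smaller than `b δ₂`; here `b = 2` if `w` is even, `b = 1` if `w` is odd and different from `1`,
  `2 d - 1`, and `b = 3` if `w = 1` or `w = 2 d - 1` (then this is automatic if `δ > 1 / 3`). If D is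
  true for the cycles of codimension at most `c` on `Z`, then it is true for the cycles of codimension
  `c` on `A × Z` for all `A` in `𝒜`.

In the formal statement `IsNarrowTriple` lists what is used: `X` is an element of `𝒜` in which all `A_i`
occur, for instance the product of the `A_i`; Frobenius has degree `Q ^ dim`, acts on the cohomology
of `Z` with eigenvalues which are Weil numbers, and acts on a cycle of codimension `i` as `Q ^ i`,
after passing to a power; the cohomology of `A`, `X`, `X × A` is generated by `H ^ 1`, where Frobenius
has the given eigenvalues; the theorem of Tate on divisors on them; Matsusaka's theorem for `X × Z`.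

The proof. Let `x` be a numerically trivial cycle on `A × Z`. A component of its class in the tensor
product of an eigenspace of `H(A)` and of `H ^ w (Z)` gives a relation between roots `z j` of the
Frobenius polynomials and an eigenvalue `ρ` of `Z`. One removes the pairs of roots with product `Q`.
The Galois group contains the automorphisms which replace one of the remaining `n` roots by its
complex conjugate (this is what the sieve provides). So some conjugate of the relation has the
largest possible `p`-adic valuation, which gives `n δ ≤ e`; and the valuations of the different `z j` are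
orthogonal as functions on the Galois group, which gives `n δ₂ ≤` the mean of `(2 λ - w) ^ 2`. Hence
`n = 0`, or `n = 1` and `w = 1` or `w = 2 d - 1`. The eigenvectors of `H(A)` and those of `H ^ n (X)`
differ by a Tate class on `X × A`, which is a polynomial in divisors, and as a correspondence maps `x`
to numerically trivial cycles on `X × Z` without losing the component. For `n = 0` one gets a
numerically trivial cycle on `Z`, for `w = n = 1` one gets a divisor on `X × Z`, and for `w = 2 d - 1`
one gets a divisor after applying the inverse of the Lefschetz isomorphism.
-/

set_option autoImplicit false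

namespace Pool.Agent.Results.MP_5f0950_ag.NarrowSurfaces

open Polynomial Pool.Agent.Q219.NS Pool.Agent.Q219.NW Pool.Agent.Q219.UZ

/-- The theorem for the family of isogeny classes over the field with `q` elements with the
Frobenius polynomials `F i`, of dimension `g i` and slopes `s i j`. -/
def Holds {κ : Type} (g : κ → ℕ) (s : ∀ i, Fin (g i) → ℚ) (q : ℕ) (F : κ → ℤ[X]) : Prop :=
  ∀ δ δ₂ : ℝ, 0 < δ → 0 < δ₂ → (∀ i, δ * g i ≤ devSum (s i)) → (∀ i, δ₂ * g i ≤ sqSum (s i)) →
    ConjectureDNarrow δ δ₂ q F ∧ (1 < 3 * δ → ConjectureDSurfaces δ δ₂ q F)

/-- **The conjecture D for `A × Z`, for all surfaces `Z` with narrow second cohomology, and for the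
abelian varieties `A` outside of a thin subset of a Newton stratum.** -/
theorem result {κ : Type} [Fintype κ] [Nonempty κ] (p : ℕ) [Fact p.Prime]
    -- dimensions and Newton polygons
    (g : κ → ℕ) (hg : ∀ i, 1 ≤ g i) (s : ∀ i, Fin (g i) → ℚ) (hs : ∀ i, IsPolygon (s i))
    -- the smallest slopes
    (σ : ℚ) (hσ : ∀ i (h : 0 < g i), s i ⟨0, h⟩ ≤ σ) (hσ2 : σ < 1 / 2) :
    (∀ N : ℕ, ∃ a₀ : ℕ, ∀ a, a₀ ≤ a →
      (NewtonStratum g s p a).Finite ∧ N ≤ (NewtonStratum g s p a).ncard) ∧
    ∃ C : ℝ, 0 < C ∧ ∀ a : ℕ, 0 < a →
      ({F ∈ NewtonStratum g s p a | ¬ Holds g s (p ^ a) F}.ncard : ℝ) ≤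
        C * (a * (p : ℝ) ^ (-((a : ℝ) * (1 - 2 * σ) / 6))) *
          ((NewtonStratum g s p a).ncard : ℝ) := by
  obtain ⟨h1, C, hC, h2⟩ := count_moment p g hg s hs σ hσ hσ2
  refine ⟨h1, C, hC, fun a ha => h2 a ha _ fun f hf hf2 δ δ₂ hδ0 hδ₂0 hδ hδ₂ => ?_⟩
  have hp : p.Prime := Fact.out
  have hq : 1 < p ^ a := Nat.one_lt_pow ha.ne' hp.one_lt
  exact ⟨conjectureDNarrow (hf δ hδ) (hf2 δ₂ hδ₂) hδ0 hδ₂0 hq, fun h3 =>
    conjectureDSurfaces (hf δ hδ) (hf2 δ₂ hδ₂) hδ₂0 hq h3⟩

end Pool.Agent.Results.MP_5f0950_ag.NarrowSurfaces
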