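import Mathlib
import Pool.Agent.Q219.ST.Rel
import Pool.Agent.Q219.ST.DMain
import Pool.Agent.Q219.NS.Defs
import Pool.Agent.Q219.NS.Main
import Pool.Agent.Q219.NS.Gen

/-!
# Cycles modulo homological and numerical equivalence on `A × Z`, with `A` outside of a thin subset
of a Newton stratum

Fix a prime `p`, a nonempty finite set `κ`, dimensions `g i ≥ 1` and, for each `i`, a symmetric
Newton polygon with slopes `s i j` and `1 - s i j` (`j < g i`, increasing in `j`, between `0` and
`1 / 2`, with integral break points: `IsPolygon (s i)`) whose smallest slope is at most `σ < 1 / 2`;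
so it is any Newton polygon that is not the supersingular one. `NewtonStratum g s p a` is the set
of families of isogeny classes of abelian varieties `A_i` of dimension `g i` over the field with
`p ^ a` elements having these Newton polygons: by the theorem of Honda and Tate it consists of
families of characteristic polynomials of Frobenius. Fix also a number field `E` in the complex
numbers and a number `r` which is smaller than all the dimensions `g i`.

We prove that the number of elements of `NewtonStratum g s p a` tends to infinity with `a`, and that
for all members, except for at most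

  `C * a * p ^ (- a (1 - 2 σ) / 6) * |NewtonStratum g s p a|`

(`C` depends on `p`, `g`, `s`, `σ`, `E`, `r` only), the following is true (`EquivalencesTimes`).

Let `A` be an abelian variety over a finite extension of the field with `p ^ a` elements, isogenous
to a product of powers of the `A_i`. Let `Z` be **any** smooth projective variety over the same
field, such that for each eigenvalue of its Frobenius endomorphism on the cohomology the conjugates
lie, up to powers, in a group generated by nonzero elements of `E` and `r` numbers (the `r` numbers
may depend on the eigenvalue). Then, for each Weil cohomology theory: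

* the Kunneth formula holds for the groups of cycles on `A × Z` modulo homological and modulo
  numerical equivalence (coefficients in `ℚ`): there are products `D j` of `deg j` divisors on `A`,
  where exactly the numbers `0, ..., dim A` occur as `deg j`, such that each cycle of codimension `c`
  on `A × Z` is homologically equivalent to `∑ D j × z j` with cycles `z j` on `Z` of codimension
  `c - deg j`, unique up to homological, respectively numerical, equivalence;
* the conjecture `D` holds for the cycles of codimension `c` on `A × Z` **if and only if** it holds
  for the cycles of codimension `c - i` on `Z`, for all `0 ≤ i ≤ dim A`.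

For instance, by the theorem of Matsusaka on divisors, `D` holds for all cycles on `A × Z` if `Z` is a
point, a curve or a surface, and for the cycles of codimension two on `A × Z` if and only if it holds
for those on `Z`. Nothing is assumed on the cycles on `Z` or `A × Z`, neither the Tate conjecture nor
the semisimplicity of Frobenius nor the other standard conjectures, and `H` is any Weil
cohomology with algebraically closed coefficients, for instance `ℓ`-adic cohomology for every `ℓ`.
-/

set_option autoImplicit false

namespace Pool.Agent.Results.MP_5f0950_ag.NewtonStrataTimesVarieties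

open Polynomial Pool.Agent.W518.DN Pool.Agent.Q219.NS Pool.Agent.Q219.ST

theorem stratum_eq {κ : Type} (g : κ → ℕ) (s : ∀ i, Fin (g i) → ℚ) (p : ℕ) [Fact p.Prime]
    (a : ℕ) : NewtonStratum g s p a = Stratum g s p a := rfl

/-- **The conjecture `D` and the Kunneth formula for cycles on `A × Z`, for all `A` outside of a thin
subset of a Newton stratum and all `Z` of small rank.** -/
theorem result {κ : Type} [Fintype κ] [Nonempty κ] (p : ℕ) [Fact p.Prime]
    -- dimensions and Newton polygons
    (g : κ → ℕ) (s : ∀ i, Fin (g i) → ℚ) (hs : ∀ i, IsPolygon (s i))
    -- the smallest slopes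
    (σ : ℚ) (hσ : ∀ i (h : 0 < g i), s i ⟨0, h⟩ ≤ σ) (hσ2 : σ < 1 / 2)
    -- the number field and the rank
    (E : IntermediateField ℚ ℂ) [FiniteDimensional ℚ E] (r : ℕ) (hr : ∀ i, r < g i) :
    (∀ N : ℕ, ∃ a₀ : ℕ, ∀ a, a₀ ≤ a →
      (NewtonStratum g s p a).Finite ∧ N ≤ (NewtonStratum g s p a).ncard) ∧
    ∃ C : ℝ, 0 < C ∧ ∀ a : ℕ, 0 < a →
      ({P ∈ NewtonStratum g s p a | ¬ EquivalencesTimes E r (p ^ a) P}.ncard : ℝ) ≤
        C * (a * (p : ℝ) ^ (-((a : ℝ) * (1 - 2 * σ) / 6))) *
          ((NewtonStratum g s p a).ncard : ℝ) := by
  classical
  have hg : ∀ i, 1 ≤ g i := fun i => (Nat.zero_le r).trans_lt (hr i)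
  have hs' : ∀ i, IsNewton (s i) := fun i => ⟨(hs i).mono, (hs i).nonneg, (hs i).le_half,
    (hs i).integral⟩
  simp only [stratum_eq]
  refine ⟨fun N => ?_, ?_⟩
  · obtain ⟨a₀, h⟩ := density g s p hg hs' (fun i => ⟨⟨0, hg i⟩, (hσ i (hg i)).trans_lt hσ2⟩)
      N 1 one_pos
    exact ⟨a₀, fun a ha => ⟨(h a ha).1, (h a ha).2.1⟩⟩
  · obtain ⟨C, hC, h⟩ := count_strata g s p (Pool.Agent.W484.TB.splitPrimes E)
      (Pool.Agent.W484.TB.dense_splitPrimes E) hg hs' σ hσ hσ2
    refine ⟨C, hC, fun a ha => h a ha (EquivalencesTimes E r (p ^ a)) fun f hm hd hf => ?_⟩
    have hp : p.Prime := Fact.out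
    exact equivalencesTimes_of E r (Nat.one_lt_pow ha.ne' hp.one_lt)
      (noRel_good E (pow_ne_zero _ hp.ne_zero) r f hm (fun i => by rw [hd i]; exact hr i) hf)

end Pool.Agent.Results.MP_5f0950_ag.NewtonStrataTimesVarieties
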